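import Pool.Agent.Run7.h43.CP.Lat

/-!
# Lifting the even projector: the core theorem for matrices
-/

set_option autoImplicit false

open Polynomial

namespace Run7.h43.CP

section Rings

variable {R : Type*} [Ring R]

lemma ring_one (n m : ℕ) {v : R} (hv : v ^ m = 0) :
    ((n : R) ^ m - ((n : R) - v) ^ m) ^ m = 0 := by
  have hc : Commute (n : R) ((n : R) - v) := Nat.cast_commute n _
  have h1 := hc.mul_geom_sum₂ m
  rw [sub_sub_cancel] at h1
  have h2 : Commute v (∑ i ∈ Finset.range m, (n : R) ^ i * ((n : R) - v) ^ (m - 1 - i)) := by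
    apply Commute.sum_right
    intro i _
    apply Commute.mul_right
    · exact (Nat.cast_commute n v).symm.pow_right i
    · exact (((Nat.cast_commute n v).symm).sub_right (Commute.refl v)).pow_right _
  rw [← h1, h2.mul_pow, hv, zero_mul]

lemma ring_two (n m : ℕ) {v : R} (hv : v ^ m = 0) :
    ((n : R) ^ m - (-v) ^ m) ^ m = (n : R) ^ (m * m) := by
  rw [neg_pow, hv, mul_zero, sub_zero, pow_mul]

end Rings

variable {W : Type*} [CommRing W] [IsDomain W] [CharZero W] {Λ : Type*} [Ring Λ]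
  {m n : Type*} [Fintype m] [DecidableEq m] [Fintype n] [DecidableEq n]

omit [DecidableEq m] in
lemma nilp_of_trace (ν : Matrix m m W) [DecidableEq m] (h : ∀ j : ℕ, (ν ^ (j + 1)).trace = 0) :
    IsNilpotent ν := by
  let K := FractionRing W
  let i : W →+* K := algebraMap W K
  have hi : Function.Injective i := IsFractionRing.injective W K
  have hK : CharZero K := charZero_of_injective_algebraMap (R := W) hi
  have h1 : IsNilpotent (Matrix.toLinAlgEquiv' (i.mapMatrix ν)) := by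
    apply Pool.Agent.H914.isNilpotent_of_trace_pow
    intro j
    rw [← map_pow, ← map_pow]
    change LinearMap.trace K _ (Matrix.toLin' (i.mapMatrix (ν ^ (j + 1)))) = 0
    rw [Matrix.trace_toLin'_eq, RingHom.mapMatrix_apply, Matrix.trace]
    have h2 : ∑ x, ((ν ^ (j + 1)).map i).diag x = i (ν ^ (j + 1)).trace := by
      rw [Matrix.trace, map_sum]
      rfl
    rw [h2, h j, map_zero]
  obtain ⟨N, hN⟩ := h1
  refine ⟨N, ?_⟩
  rw [← map_pow, ← map_pow, map_eq_zero_iff _ Matrix.toLinAlgEquiv'.injective] at hN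
  apply Matrix.map_injective hi
  change (ν ^ N).map i = Matrix.map 0 i
  rw [Matrix.map_zero i (map_zero i)]
  exact hN

/-- The combinations of the elements in the range of a homomorphism of rings. -/
noncomputable def spanAlg (Φ : Λ →+* (Matrix m m W × Matrix n n W)) :
    Subalgebra W (Matrix m m W × Matrix n n W) :=
  (Submodule.span W (Set.range Φ)).toSubalgebra
    (Submodule.subset_span ⟨1, map_one Φ⟩) (fun x y hx hy => by
      have h2 := Submodule.mul_mem_mul hx hy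
      rw [Submodule.span_mul_span] at h2
      refine Submodule.span_mono ?_ h2
      rintro _ ⟨_, ⟨u, rfl⟩, _, ⟨v, rfl⟩, rfl⟩
      exact ⟨u * v, map_mul Φ u v⟩)

omit [IsDomain W] [CharZero W] in
lemma mem_spanAlg {Φ : Λ →+* (Matrix m m W × Matrix n n W)} {Y : Matrix m m W × Matrix n n W} :
    Y ∈ spanAlg Φ ↔ Y ∈ Submodule.span W (Set.range Φ) := Iff.rfl

omit [IsDomain W] in
lemma rad_mul_left {Φ : Λ →+* (Matrix m m W × Matrix n n W)} {s : Λ →+ ℤ}
    (hs : ∀ x, str (Φ x) = s x) (x : Λ) {ν : Λ} (hν : ν ∈ rad s) : x * ν ∈ rad s := by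
  intro b
  have h1 : (s (x * (ν * b)) : W) = s (ν * b * x) := by
    rw [← hs, ← hs, map_mul Φ x, map_mul Φ (ν * b)]
    simp only [str, Prod.fst_mul, Prod.snd_mul]
    rw [Matrix.trace_mul_comm, Matrix.trace_mul_comm (Φ x).2]
  have h2 : s (x * (ν * b)) = s (ν * b * x) := by exact_mod_cast h1
  rw [mul_assoc, h2, mul_assoc]
  exact hν _

omit [IsDomain W] in
lemma mul_mem_rad {Φ : Λ →+* (Matrix m m W × Matrix n n W)} {s : Λ →+ ℤ}
    (hs : ∀ x, str (Φ x) = s x) {Y Z : Matrix m m W × Matrix n n W}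
    (hY : Y ∈ spanAlg Φ) (hZ : Z ∈ Submodule.span W (Φ '' rad s)) :
    Y * Z ∈ Submodule.span W (Φ '' rad s) := by
  have h2 := Submodule.mul_mem_mul (mem_spanAlg.1 hY) hZ
  rw [Submodule.span_mul_span] at h2
  refine Submodule.span_mono ?_ h2
  rintro _ ⟨_, ⟨u, rfl⟩, _, ⟨v, hv, rfl⟩, rfl⟩
  exact ⟨u * v, rad_mul_left hs u hv, map_mul Φ u v⟩

omit [IsDomain W] [CharZero W] in
lemma str_rad {Φ : Λ →+* (Matrix m m W × Matrix n n W)} {s : Λ →+ ℤ}
    (hs : ∀ x, str (Φ x) = s x) {Z : Matrix m m W × Matrix n n W}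
    (hZ : Z ∈ Submodule.span W (Φ '' rad s)) : str Z = 0 := by
  rw [← strL_apply]
  induction hZ using Submodule.span_induction with
  | mem y hy =>
    obtain ⟨ν, hν, rfl⟩ := hy
    rw [strL_apply, hs, ← mul_one ν, hν, Int.cast_zero]
  | zero => rw [map_zero]
  | add y z _ _ h1 h2 => rw [map_add, h1, h2, add_zero]
  | smul u y _ h1 => rw [map_smul, h1, smul_zero]

/-- The elements of the radical are nilpotent. -/
lemma rad_nilp {Φ : Λ →+* (Matrix m m W × Matrix n n W)} {s : Λ →+ ℤ}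
    (hs : ∀ x, str (Φ x) = s x)
    (hP : ((1 : Matrix m m W), (0 : Matrix n n W)) ∈ Submodule.span W (Set.range Φ))
    {ν : Matrix m m W × Matrix n n W} (hν : ν ∈ Submodule.span W (Φ '' rad s)) :
    IsNilpotent ν.1 ∧ IsNilpotent ν.2 := by
  have h1 : ν ∈ spanAlg Φ := by
    refine Submodule.span_mono ?_ hν
    rintro _ ⟨x, -, rfl⟩
    exact ⟨x, rfl⟩
  have h2 : ∀ j : ℕ, ν ^ (j + 1) ∈ Submodule.span W (Φ '' rad s) := by
    intro j
    rw [pow_succ]
    exact mul_mem_rad hs (pow_mem h1 j) hν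
  have h3 : ∀ j : ℕ, (ν.1 ^ (j + 1)).trace = 0 := by
    intro j
    have h4 := str_rad hs (mul_mem_rad hs (mem_spanAlg.2 hP) (h2 j))
    simp only [str, Prod.fst_mul, Prod.snd_mul, Prod.pow_fst, Prod.pow_snd, one_mul, zero_mul,
      Matrix.trace_zero, sub_zero] at h4
    exact h4
  have h5 : ∀ j : ℕ, (ν.2 ^ (j + 1)).trace = 0 := by
    intro j
    have h4 := str_rad hs (h2 j)
    simp only [str, Prod.pow_fst, Prod.pow_snd, h3 j, zero_sub, neg_eq_zero] at h4
    exact h4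
  exact ⟨nilp_of_trace _ h3, nilp_of_trace _ h5⟩

/-- **The core theorem.** -/
theorem core [IsNoetherianRing W] {k : Type*} [Field k] {r : W →+* k} [IsLocalHom r] {p : ℕ}
    (hp : p.Prime) (hr : ∀ w, r w = 0 ↔ (p : W) ∣ w) (Φ : Λ →+* (Matrix m m W × Matrix n n W))
    (hs : ∀ x, ∃ z : ℤ, str (Φ x) = z) {Y : Matrix m m W × Matrix n n W}
    (hY : Y ∈ Submodule.span W (Set.range Φ)) (h1 : Y.1.map r = 1) (h0 : Y.2.map r = 0) :
    ∃ (N : ℕ) (x : Λ), N.Coprime p ∧ Φ x = ((N : Matrix m m W), (0 : Matrix n n W)) := by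
  -- the supertrace
  choose s₀ hs₀ using hs
  let s : Λ →+ ℤ := AddMonoidHom.mk' s₀ (by
    intro x y
    have : (s₀ (x + y) : W) = ((s₀ x + s₀ y : ℤ) : W) := by
      rw [Int.cast_add, ← hs₀, ← hs₀, ← hs₀, map_add, ← strL_apply, map_add]
      rfl
    exact_mod_cast this)
  have hs : ∀ x, str (Φ x) = s x := hs₀
  -- the projector
  have hP : ((1 : Matrix m m W), (0 : Matrix n n W)) ∈ Submodule.span W (Set.range Φ) := by
    obtain ⟨h, ha, hb⟩ := exists_poly r Y.1 Y.2 h1 h0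
    have h2 : aeval Y h ∈ spanAlg Φ := by
      have h3 := (aeval (⟨Y, hY⟩ : spanAlg Φ) h).2
      rwa [Polynomial.aeval_subalgebra_coe] at h3
    have h4 : aeval Y h = ((1 : Matrix m m W), (0 : Matrix n n W)) := by
      rw [Polynomial.aeval_prod_apply, ha, hb]
    rw [← h4]
    exact h2
  obtain ⟨N, a, ν, hN, hν, ha⟩ := exists_approx hp hr Φ s hs hP
  obtain ⟨⟨d1, hd1⟩, ⟨d2, hd2⟩⟩ := rad_nilp hs hP hν
  have e1 : ν.1 ^ (d1 + d2) = 0 := by rw [pow_add, hd1, zero_mul]
  have e2 : ν.2 ^ (d1 + d2) = 0 := by rw [pow_add, hd2, mul_zero]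
  generalize d1 + d2 = d at e1 e2
  have a1 : (Φ a).1 = (N : Matrix m m W) - ν.1 := by
    rw [ha]
    change N • (1 : Matrix m m W) - ν.1 = _
    rw [nsmul_eq_mul, mul_one]
  have a2 : (Φ a).2 = - ν.2 := by
    rw [ha]
    change N • (0 : Matrix n n W) - ν.2 = _
    rw [smul_zero, zero_sub]
  refine ⟨N ^ (d * d), (N : Λ) ^ (d * d) - ((N : Λ) ^ d - a ^ d) ^ d, Nat.Coprime.pow_left _ hN, ?_⟩
  have e3 : Φ ((N : Λ) ^ (d * d) - ((N : Λ) ^ d - a ^ d) ^ d) =
      (N : Matrix m m W × Matrix n n W) ^ (d * d) -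
        ((N : Matrix m m W × Matrix n n W) ^ d - (Φ a) ^ d) ^ d := by
    simp only [map_sub, map_pow, map_natCast]
  rw [e3]
  apply Prod.ext
  · change (N : Matrix m m W) ^ (d * d) - ((N : Matrix m m W) ^ d - (Φ a).1 ^ d) ^ d = _
    rw [a1, ring_one N d e1, sub_zero]
    push_cast
    rfl
  · change (N : Matrix n n W) ^ (d * d) - ((N : Matrix n n W) ^ d - (Φ a).2 ^ d) ^ d = _
    rw [a2, ring_two N d e2, sub_self]

end Run7.h43.CP
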