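import Mathlib.LinearAlgebra.TensorProduct.Basic
import Mathlib.LinearAlgebra.Trace
import Mathlib.RingTheory.WittVector.DiscreteValuationRing
import Mathlib.RingTheory.WittVector.Teichmuller
import Mathlib.RepresentationTheory.Invariants

/-!
# Periodic cyclic homology and topological periodic cyclic homology in characteristic `p`
-/

set_option autoImplicit false

open scoped TensorProduct

namespace Run7.h43.CP

universe u u' v w

/-- Two modules `M 0` (even part) and `M 1` (odd part) over `R` with an action of the ring `Λ`. For a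
saturated dg category `A` the ring is `Λ = K_0(A^op ⊗ A)`, the multiplication is the composition of
correspondences; the modules are `HP^+(A)`, `HP^-(A)` over `R = k`, or `TP_0(A)`, `TP_1(A)` over
`R = W(k)`. -/
structure Graded (R : Type u) [CommRing R] (Λ : Type v) [Ring Λ] where
  /-- the even and the odd module -/
  M : ZMod 2 → Type w
  [group : ∀ i, AddCommGroup (M i)]
  [module : ∀ i, Module R (M i)]
  /-- the action of the correspondences -/
  act : ∀ i, Λ →+* Module.End R (M i)

namespace Graded

attribute [instance] group module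

variable {R : Type u} [CommRing R] {k : Type u'} [Field k] {Λ : Type v} [Ring Λ]

/-- The maps `red i : TP_i → HP_i` are linear over `r : W(k) → k` and commute with `Λ`. -/
structure IsReduction (r : R →+* k) (T : Graded.{u, v, w} R Λ) (H : Graded.{u', v, w} k Λ)
    (red : ∀ i, T.M i →+ H.M i) : Prop where
  smul : ∀ i (a : R) (t : T.M i), red i (a • t) = r a • red i t
  comm : ∀ i (x : Λ) (t : T.M i), red i (T.act i x t) = H.act i x (red i t)

/-- The maps `bd i : HP_i → TP_(i+1)` are linear over `W(k)` and commute with `Λ`. -/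
structure IsBoundary (r : R →+* k) (T : Graded.{u, v, w} R Λ) (H : Graded.{u', v, w} k Λ)
    (bd : ∀ i, H.M i →+ T.M (i + 1)) : Prop where
  smul : ∀ i (a : R) (h : H.M i), bd i (r a • h) = a • bd i h
  comm : ∀ i (x : Λ) (h : H.M i), bd i (H.act i x h) = T.act (i + 1) x (bd i h)

/-- The sequence `TP_i → TP_i → HP_i → TP_(i+1) → TP_(i+1)` is exact; the first and the last map are
the multiplication by `p`. -/
structure IsExact (p : ℕ) (T : Graded.{u, v, w} R Λ) (H : Graded.{u', v, w} k Λ)
    (red : ∀ i, T.M i →+ H.M i) (bd : ∀ i, H.M i →+ T.M (i + 1)) : Prop where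
  ker_red : ∀ i (t : T.M i), red i t = 0 ↔ ∃ t' : T.M i, t = (p : R) • t'
  ker_bd : ∀ i (h : H.M i), bd i h = 0 ↔ ∃ t : T.M i, red i t = h
  ker_mul : ∀ i (t : T.M (i + 1)), (p : R) • t = 0 ↔ ∃ h : H.M i, bd i h = t

/-- If both modules are free, then the supertraces of the elements of `Λ` are integers. (For
correspondences they are the Euler characteristics of the Hochschild homology of `A` with coefficients
in the bimodule.) -/
def IntegralTraces (T : Graded.{u, v, w} R Λ) : Prop :=
  (∀ i, Module.Free R (T.M i)) → ∀ x : Λ, ∃ z : ℤ,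
    LinearMap.trace R (T.M 0) (T.act 0 x) - LinearMap.trace R (T.M 1) (T.act 1 x) = z

/-- The conjecture `C_NC(A)` with coefficients in a field `F`: a combination of correspondences with
coefficients in `F` acts as the Kunneth projector `π⁺` on `H = HP(A)`, as the identity on the even part
and as zero on the odd part. Here `E` is a common extension field of `F` and `k` (for `F ⊇ k` one takes
`E = F`, for `F ⊆ k` one takes `E = k`), and the equation is between elements of `E ⊗ HP_i(A)`. -/
def Conjecture (H : Graded.{u', v, w} k Λ) (F : Type*) (E : Type*) [Field F] [Field E] [Algebra F E]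
    [Algebra k E] : Prop :=
  ∃ (n : ℕ) (c : Fin n → F) (x : Fin n → Λ), ∀ (i : ZMod 2) (h : H.M i),
    ∑ j, (algebraMap F E (c j)) ⊗ₜ[k] (H.act i (x j) h) = if i = 0 then (1 : E) ⊗ₜ[k] h else 0

/-- `H = HP(A_k)` comes from `H₀ = HP(A₀)` by base change, where `A₀` is a saturated dg category over a
subfield `k₀` of `k`, and `f : K_0(A₀^op ⊗ A₀) → K_0(A_k^op ⊗ A_k)`: there are maps from `H₀` to `H` which
are linear over `k₀` and compatible with the actions, and their images span `H` over `k`. -/
def IsBaseChange {k₀ : Type u} [Field k₀] [Algebra k₀ k] {Λ₀ : Type v} [Ring Λ₀] (f : Λ₀ →+* Λ)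
    (H₀ : Graded.{u, v, w} k₀ Λ₀) (H : Graded.{u', v, w} k Λ) : Prop :=
  ∃ m : ∀ i, H₀.M i →+ H.M i,
    (∀ i (a : k₀) (h : H₀.M i), m i (a • h) = algebraMap k₀ k a • m i h) ∧
    (∀ i (x : Λ₀) (h : H₀.M i), m i (H₀.act i x h) = H.act i (f x) (m i h)) ∧
    ∀ i, Submodule.span k (Set.range (m i)) = ⊤

/-- One correspondence, an element of `K_0(A^op ⊗ A)`, acts as `π⁺` on `H = HP(A)`. -/
def Realised (H : Graded.{u, v, w} R Λ) : Prop :=
  ∃ x : Λ, ∀ (i : ZMod 2) (h : H.M i), H.act i x h = if i = 0 then h else 0

/-- Both modules are torsion free. -/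
def TorsionFree (T : Graded.{u, v, w} R Λ) : Prop :=
  ∀ (i : ZMod 2) (a : R) (t : T.M i), a • t = 0 → a = 0 ∨ t = 0

/-- A combination of correspondences with coefficients in `R = W(k)` acts as the identity on
`TP_0(A)` and as zero on `TP_1(A)`. -/
def WittCombination (T : Graded.{u, v, w} R Λ) : Prop :=
  ∃ (n : ℕ) (c : Fin n → R) (x : Fin n → Λ), ∀ (i : ZMod 2) (t : T.M i),
    ∑ j, c j • T.act i (x j) t = if i = 0 then t else 0

/-- One correspondence acts as the multiplication by a number `N` prime to `p` on `TP_0(A)` and as zero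
on `TP_1(A)`. -/
def IntegralMultiple (p : ℕ) (T : Graded.{u, v, w} R Λ) : Prop :=
  ∃ N : ℕ, N.Coprime p ∧ ∃ x : Λ, ∀ (i : ZMod 2) (t : T.M i),
    T.act i x t = if i = 0 then N • t else 0

end Graded

/-- The known properties of the periodic cyclic homology `HP` and of the topological periodic cyclic
homology `TP` of a saturated dg category over a perfect field `k` of characteristic `p`; here `R` is
the ring `W(k)` of Witt vectors and `r : W(k) → k` the reduction. The degrees are in `ℤ/2`. -/
structure Periodic (p : ℕ) {R : Type u} [CommRing R] {k : Type u'} [Field k] (r : R →+* k)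
    (Λ : Type v) [Ring Λ] where
  /-- the periodic cyclic homology `HP` -/
  HP : Graded.{u', v, w} k Λ
  /-- the topological periodic cyclic homology `TP` -/
  TP : Graded.{u, v, w} R Λ
  finite : ∀ i, Module.Finite R (TP.M i)
  /-- the reduction modulo `p` -/
  red : ∀ i, TP.M i →+ HP.M i
  /-- the connecting map -/
  bd : ∀ i, HP.M i →+ TP.M (i + 1)
  isReduction : Graded.IsReduction r TP HP red
  isBoundary : Graded.IsBoundary r TP HP bd
  isExact : Graded.IsExact p TP HP red bd
  integralTraces : TP.IntegralTraces

/-- The known properties of the surface `X = (B' × C) / G`, where the finite `p`-group `G` acts freely on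
the curve `B'`, with quotient a curve `B` of genus `g`, and acts on the curve `C`, with quotient the
projective line and with a fixed point; `ρ` is the representation of `G` on `V = H^1_dR(C)`. For the dg
category `perf(X)`: `HP^-(X)` has dimension `2 h^1_dR(X)`, where `h^1_dR(X) = 2 g + dim V^G`, and `TP_1`
has rank `b_1(X) + b_3(X) = 2 b_1(X) = 4 g`. -/
structure IsQuotientSurface {p : ℕ} {R : Type u} [CommRing R] {k : Type u'} [Field k] {r : R →+* k}
    {Λ : Type v} [Ring Λ] (A : Periodic.{u, u', v, w} p r Λ) (g : ℕ) {G V : Type*} [Group G]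
    [AddCommGroup V] [Module k V] (ρ : Representation k G V) : Prop where
  dim : Module.finrank k (A.HP.M 1) = 2 * (2 * g + Module.finrank k ρ.invariants)
  rank : Module.finrank R (A.TP.M 1) = 2 * (2 * g)

end Run7.h43.CP
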