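import Pool.Agent.Run7.h43.CP.Rat

/-!
# Lifting the even projector: integral multiples prime to `p`
-/

set_option autoImplicit false

open Polynomial

namespace Run7.h43.CP

section Indep

/-- Integral vectors which are independent over the integers are independent over every domain of
characteristic zero. -/
lemma indep {W : Type*} [CommRing W] [IsDomain W] [CharZero W] {ι F : Type*} [Fintype ι]
    [Finite F] (l : ι → F → ℤ) (hl : LinearIndependent ℤ l) (δ : ι → W)
    (h : ∀ j, ∑ i, δ i * (l i j : W) = 0) : ∀ i, δ i = 0 := by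
  let K := FractionRing W
  have hi : Function.Injective (algebraMap W K) := IsFractionRing.injective W K
  have hK : CharZero K := charZero_of_injective_algebraMap (R := W) hi
  let lQ : ι → F → ℚ := fun i j => (l i j : ℚ)
  have hlQ : LinearIndependent ℚ lQ := by
    rw [← LinearIndependent.iff_fractionRing ℤ ℚ, Fintype.linearIndependent_iff]
    intro c hc
    rw [Fintype.linearIndependent_iff] at hl
    apply hl c
    funext j
    have h1 := congrFun hc j
    rw [Finset.sum_apply] at h1 ⊢
    have h2 : ∑ i, ((c i * l i j : ℤ) : ℚ) = 0 := by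
      rw [← Pi.zero_apply (M := fun _ => ℚ) j, ← h1]
      exact Finset.sum_congr rfl (fun i _ => by
        rw [Pi.smul_apply, zsmul_eq_mul, Int.cast_mul])
    have h3 : ((∑ i, c i * l i j : ℤ) : ℚ) = 0 := by rw [Int.cast_sum]; exact h2
    exact_mod_cast h3
  intro i
  apply hi
  rw [map_zero]
  rw [← Module.forall_dual_apply_eq_zero_iff ℚ (algebraMap W K (δ i))]
  intro ℓ
  have h4 := Fintype.linearIndependent_iff.1 hlQ (fun i => ℓ (algebraMap W K (δ i))) (by
    funext j
    rw [Finset.sum_apply, Pi.zero_apply]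
    have h5 : ℓ (algebraMap W K (∑ i, δ i * (l i j : W))) = 0 := by
      rw [h j, map_zero, map_zero]
    rw [map_sum, map_sum] at h5
    rw [← h5]
    apply Finset.sum_congr rfl
    intro i _
    rw [Pi.smul_apply, smul_eq_mul, map_mul, map_intCast, mul_comm (algebraMap W K (δ i)),
      ← zsmul_eq_mul, map_zsmul, zsmul_eq_mul, mul_comm])
  exact h4 i

end Indep

section Lattice

variable {W : Type*} [CommRing W] [IsDomain W] [CharZero W] [IsNoetherianRing W] {k : Type*}
  [Field k] {r : W →+* k} {p : ℕ} {Λ : Type*} [Ring Λ] {m n : Type*} [Fintype m] [DecidableEq m]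
  [Fintype n] [DecidableEq n]

/-- The elements which are orthogonal to all others. -/
def rad (s : Λ →+ ℤ) : Set Λ := {ν | ∀ b, s (ν * b) = 0}

/-- The supertrace as a linear map. -/
noncomputable def strL : (Matrix m m W × Matrix n n W) →ₗ[W] W :=
  Matrix.traceLinearMap m W W ∘ₗ LinearMap.fst W _ _ - Matrix.traceLinearMap n W W ∘ₗ LinearMap.snd W _ _

omit [IsDomain W] [CharZero W] [IsNoetherianRing W] [DecidableEq m] [DecidableEq n] in
lemma strL_apply (Y : Matrix m m W × Matrix n n W) : strL Y = str Y := rfl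

/-- **The projector modulo numerically trivial elements.** -/
theorem exists_approx (hp : p.Prime) (hr : ∀ w, r w = 0 ↔ (p : W) ∣ w)
    (Φ : Λ →+* (Matrix m m W × Matrix n n W)) (s : Λ →+ ℤ) (hs : ∀ x, str (Φ x) = s x)
    (hP : ((1 : Matrix m m W), (0 : Matrix n n W)) ∈ Submodule.span W (Set.range Φ)) :
    ∃ (N : ℕ) (a : Λ) (ν : Matrix m m W × Matrix n n W), N.Coprime p ∧
      ν ∈ Submodule.span W (Φ '' rad s) ∧ Φ a = N • ((1 : Matrix m m W), (0 : Matrix n n W)) - ν := by
  classical
  obtain ⟨P, hPdef⟩ : ∃ P, P = ((1 : Matrix m m W), (0 : Matrix n n W)) := ⟨_, rfl⟩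
  -- test elements
  obtain ⟨F, hF, hFs⟩ := (Submodule.fg_span_iff_fg_span_finset_subset (Set.range Φ)).1
    (IsNoetherian.noetherian (Submodule.span W (Set.range Φ)))
  choose b hb using fun j : F => hF j.2
  have hbF : Submodule.span W (Set.range Φ) = Submodule.span W (Set.range (fun j : F => Φ (b j))) := by
    rw [hFs]
    congr 1
    ext y
    constructor
    · intro hy
      exact ⟨⟨y, hy⟩, hb ⟨y, hy⟩⟩
    · rintro ⟨j, rfl⟩
      change Φ (b j) ∈ _
      rw [hb j]
      exact j.2
  have hexp : ∀ Y ∈ Submodule.span W (Set.range Φ), ∃ w : F → W, ∑ j, w j • Φ (b j) = Y := by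
    intro Y hY
    rw [hbF] at hY
    exact (Submodule.mem_span_range_iff_exists_fun W).1 hY
  -- the lattice
  let θ : Λ →ₗ[ℤ] (F → ℤ) := LinearMap.pi (fun j =>
    (s.comp (AddMonoidHom.mulRight (b j))).toIntLinearMap)
  have hθ : ∀ x j, θ x j = s (x * b j) := fun _ _ => rfl
  have hker : ∀ ν, θ ν = 0 → ν ∈ rad s := by
    intro ν hν y
    obtain ⟨w, hw⟩ := hexp (Φ y) (Submodule.subset_span ⟨y, rfl⟩)
    have h1 : (s (ν * y) : W) = 0 := by
      rw [← hs, map_mul, ← hw, ← strL_apply, Finset.mul_sum, map_sum]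
      apply Finset.sum_eq_zero
      intro j _
      rw [mul_smul_comm, map_smul, strL_apply, ← map_mul, hs, ← hθ, hν, Pi.zero_apply,
        Int.cast_zero, smul_zero]
    exact_mod_cast h1
  let L := LinearMap.range θ
  let l := Module.finBasis ℤ L
  choose x hx using fun i => (l i).2
  let c : Λ → Fin (Module.finrank ℤ L) → ℤ := fun y i => l.repr ⟨θ y, y, rfl⟩ i
  have hc : ∀ y, y - ∑ i, c y i • x i ∈ rad s := by
    intro y
    apply hker
    rw [map_sub, map_sum, sub_eq_zero]
    have h2 : ∑ i, ((l.repr ⟨θ y, y, rfl⟩ i • l i : L) : F → ℤ) = θ y := by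
      rw [← AddSubmonoidClass.coe_finsetSum, l.sum_repr]
    refine h2.symm.trans ?_
    apply Finset.sum_congr rfl
    intro i _
    rw [map_zsmul, hx]
    rfl
  have hdec : ∀ y, Φ y = ∑ i, (c y i : W) • Φ (x i) + Φ (y - ∑ i, c y i • x i) := by
    intro y
    rw [map_sub, map_sum]
    have : ∑ i, (c y i : W) • Φ (x i) = ∑ i, Φ (c y i • x i) := by
      apply Finset.sum_congr rfl
      intro i _
      rw [map_zsmul, Int.cast_smul_eq_zsmul]
    rw [this]
    abel
  -- the expansions
  obtain ⟨w, hw⟩ := hexp P (by rw [hPdef]; exact hP)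
  obtain ⟨M, hM, a0, ha0⟩ := exists_multiple Φ (fun x => ⟨s x, hs x⟩) hP
  have ha0' : Φ a0 = (M : W) • P := by
    rw [ha0, hPdef, Nat.cast_smul_eq_nsmul]
    change _ = (M • (1 : Matrix m m W), M • (0 : Matrix n n W))
    rw [smul_zero, nsmul_eq_mul, mul_one]
  let w' : Fin (Module.finrank ℤ L) → W := fun i => ∑ j, w j * (c (b j) i : W)
  let ν1 : Matrix m m W × Matrix n n W := ∑ j, w j • Φ (b j - ∑ i, c (b j) i • x i)
  have hν1 : ν1 ∈ Submodule.span W (Φ '' rad s) :=
    Submodule.sum_mem _ (fun j _ => Submodule.smul_mem _ _ (Submodule.subset_span ⟨_, hc _, rfl⟩))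
  have hPe : P = ∑ i, w' i • Φ (x i) + ν1 := by
    rw [← hw]
    have h1 : ∀ j, w j • Φ (b j) = ∑ i, (w j * (c (b j) i : W)) • Φ (x i) +
        w j • Φ (b j - ∑ i, c (b j) i • x i) := by
      intro j
      conv_lhs => rw [hdec (b j)]
      rw [smul_add, Finset.smul_sum]
      congr 1
      exact Finset.sum_congr rfl (fun i _ => by rw [smul_smul])
    rw [Finset.sum_congr rfl (fun j _ => h1 j), Finset.sum_add_distrib, Finset.sum_comm]
    congr 1
    exact Finset.sum_congr rfl (fun i _ => by rw [← Finset.sum_smul])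
  -- the functionals
  have hfun : ∀ j, ∀ Y ∈ Submodule.span W (Φ '' rad s), strL (Y * Φ (b j)) = 0 := by
    intro j Y hY
    induction hY using Submodule.span_induction with
    | mem y hy =>
      obtain ⟨ν, hν, rfl⟩ := hy
      rw [strL_apply, ← map_mul, hs, hν, Int.cast_zero]
    | zero => rw [zero_mul, map_zero]
    | add y z _ _ h1 h2 => rw [add_mul, map_add, h1, h2, add_zero]
    | smul u y _ h1 => rw [smul_mul_assoc, map_smul, h1, smul_zero]
  have hzero : ∀ i, (M : W) * w' i - (c a0 i : W) = 0 := by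
    have hl : LinearIndependent ℤ (fun i => ((l i : L) : F → ℤ)) := by
      have := l.linearIndependent.map' L.subtype (Submodule.ker_subtype L)
      exact this
    apply indep (fun i => ((l i : L) : F → ℤ)) hl
    intro j
    have h1 : ∑ i, ((M : W) * w' i - (c a0 i : W)) • Φ (x i) =
        Φ (a0 - ∑ i, c a0 i • x i) - (M : W) • ν1 := by
      have h2 := hdec a0
      rw [ha0', hPe, smul_add, Finset.smul_sum] at h2
      have h3 : ∑ i, ((M : W) * w' i - (c a0 i : W)) • Φ (x i) =
          ∑ i, (M : W) • w' i • Φ (x i) - ∑ i, (c a0 i : W) • Φ (x i) := by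
        rw [← Finset.sum_sub_distrib]
        exact Finset.sum_congr rfl (fun i _ => by rw [sub_smul, mul_smul])
      rw [h3, sub_eq_sub_iff_add_eq_add, h2]
      abel
    have h4 := congrArg (fun Y => strL (Y * Φ (b j))) h1
    rw [sub_mul, map_sub, smul_mul_assoc, map_smul, hfun j _ hν1, smul_zero, sub_zero,
      hfun j _ (Submodule.subset_span ⟨_, hc _, rfl⟩), Finset.sum_mul, map_sum] at h4
    rw [← h4]
    apply Finset.sum_congr rfl
    intro i _
    rw [smul_mul_assoc, map_smul, strL_apply, ← map_mul, hs, ← hθ, hx i, smul_eq_mul]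
  -- the denominators
  choose N hN z hz using fun i => exists_coprime (r := r) hp hr hM
    (show (M : W) * w' i = ((c a0 i : ℤ) : W) from sub_eq_zero.1 (hzero i))
  have hz' : ∀ i, ∃ z' : ℤ, ((∏ i, N i : ℕ) : W) * w' i = z' := by
    intro i
    refine ⟨(∏ j ∈ Finset.univ.erase i, N j : ℕ) * z i, ?_⟩
    rw [← Finset.mul_prod_erase Finset.univ N (Finset.mem_univ i)]
    push_cast
    rw [← hz i]
    ring
  choose z' hz' using hz'
  refine ⟨∏ i, N i, ∑ i, z' i • x i, ((∏ i, N i : ℕ) : W) • ν1, ?_, Submodule.smul_mem _ _ hν1, ?_⟩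
  · exact Nat.Coprime.prod_left (fun i _ => hN i)
  · have h5 : P - ν1 = ∑ i, w' i • Φ (x i) := sub_eq_iff_eq_add.2 hPe
    rw [← hPdef, ← Nat.cast_smul_eq_nsmul W, ← smul_sub, map_sum, h5, Finset.smul_sum]
    apply Finset.sum_congr rfl
    intro i _
    rw [map_zsmul, smul_smul, hz' i, Int.cast_smul_eq_zsmul]

end Lattice

end Run7.h43.CP
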