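import Pool.Agent.Run7.h43.CP.Core
import Pool.Agent.Run7.h43.CP.Defs

/-!
# The Kunneth projector in characteristic `p` and the torsion of `TP`
-/

set_option autoImplicit false

open scoped TensorProduct

namespace Run7.h43.CP

universe u v w

namespace Periodic

attribute [instance] Periodic.finite

variable {p : ℕ} [hp : Fact p.Prime] {k : Type u} [Field k] [CharP k p] {Λ : Type v} [Ring Λ]
  (A : Periodic.{u, u, v, w} p (WittVector.constantCoeff : WittVector p k →+* k) Λ)

lemma parity (i : ZMod 2) : (i = 0 ∧ i + 1 ≠ 0) ∨ (i ≠ 0 ∧ i + 1 = 0) := by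
  revert i
  decide

lemma zmod_cases : ∀ i : ZMod 2, i = 0 ∨ i = 1 := by decide

/-- The combination `φ` of correspondences acts on `HP` as `π⁺`. -/
def Good {n : ℕ} (c : Fin n → WittVector p k) (x : Fin n → Λ) : Prop :=
  ∀ (i : ZMod 2) (h : A.HP.M i),
    ∑ j, WittVector.constantCoeff (c j) • A.HP.act i (x j) h = if i = 0 then h else 0

/-- The combination as an operator on `TP`. -/
noncomputable def comb {n : ℕ} (c : Fin n → WittVector p k) (x : Fin n → Λ) (i : ZMod 2) :
    Module.End (WittVector p k) (A.TP.M i) := ∑ j, c j • A.TP.act i (x j)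

lemma comb_apply {n : ℕ} (c : Fin n → WittVector p k) (x : Fin n → Λ) (i : ZMod 2) (t : A.TP.M i) :
    A.comb c x i t = ∑ j, c j • A.TP.act i (x j) t := by
  rw [comb, LinearMap.sum_apply]
  rfl

lemma red_comb {n : ℕ} {c : Fin n → WittVector p k} {x : Fin n → Λ} (hg : A.Good c x) (i : ZMod 2)
    (t : A.TP.M i) : A.red i (A.comb c x i t) = if i = 0 then A.red i t else 0 := by
  rw [← hg i (A.red i t), comb_apply, map_sum]
  exact Finset.sum_congr rfl (fun j _ => by rw [A.isReduction.smul, A.isReduction.comm])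

lemma bd_comb {n : ℕ} {c : Fin n → WittVector p k} {x : Fin n → Λ} (hg : A.Good c x) (i : ZMod 2)
    (h : A.HP.M i) : A.comb c x (i + 1) (A.bd i h) = if i = 0 then A.bd i h else 0 := by
  have h1 := congrArg (A.bd i) (hg i h)
  rw [map_sum] at h1
  rw [comb_apply]
  have h2 : ∀ j, A.bd i (WittVector.constantCoeff (c j) • A.HP.act i (x j) h) =
      c j • A.TP.act (i + 1) (x j) (A.bd i h) := fun j => by rw [A.isBoundary.smul, A.isBoundary.comm]
  rw [Finset.sum_congr rfl (fun j _ => h2 j)] at h1
  rw [h1]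
  split_ifs
  · rfl
  · rw [map_zero]

omit hp [CharP k p] in
/-- Coefficients in `k` are enough. -/
lemma _root_.Run7.h43.CP.Graded.exists_comb {k : Type u} [Field k] {Λ : Type v} [Ring Λ]
    (H : Graded.{u, v, w} k Λ) {F : Type*} {E : Type*} [Field F] [Field E] [Algebra F E]
    [Algebra k E] (h : H.Conjecture F E) : ∃ (n : ℕ) (c : Fin n → k) (x : Fin n → Λ),
      ∀ (i : ZMod 2) (h : H.M i), ∑ j, c j • H.act i (x j) h = if i = 0 then h else 0 := by
  obtain ⟨n, c, x, hc⟩ := h
  obtain ⟨ℓ, hℓ⟩ := LinearMap.exists_leftInverse_of_injective (Algebra.linearMap k E)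
    (LinearMap.ker_eq_bot.2 (FaithfulSMul.algebraMap_injective k E))
  have hℓ1 : ℓ 1 = 1 := by
    have := LinearMap.congr_fun hℓ 1
    simpa using this
  refine ⟨n, fun j => ℓ (algebraMap F E (c j)), x, fun i h => ?_⟩
  have h1 := congrArg ((TensorProduct.lid k (H.M i)).toLinearMap ∘ₗ
    LinearMap.rTensor (H.M i) ℓ) (hc i h)
  rw [map_sum] at h1
  have h2 : ∀ (e : E) (y : H.M i), ((TensorProduct.lid k (H.M i)).toLinearMap ∘ₗ
      LinearMap.rTensor (H.M i) ℓ) (e ⊗ₜ[k] y) = ℓ e • y := fun e y => by
    rw [LinearMap.comp_apply, LinearMap.rTensor_tmul, LinearEquiv.coe_coe, TensorProduct.lid_tmul]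
  rw [Finset.sum_congr rfl (fun j _ => h2 _ _)] at h1
  rw [h1]
  split_ifs
  · rw [h2, hℓ1, one_smul]
  · rw [map_zero]

omit hp [CharP k p] in
/-- The conjecture over a subfield. -/
lemma _root_.Run7.h43.CP.Graded.conjecture_of_base {k₀ : Type u} [Field k₀] {k : Type u} [Field k]
    [Algebra k₀ k] {Λ₀ Λ : Type v} [Ring Λ₀] [Ring Λ] {f : Λ₀ →+* Λ} {H₀ : Graded.{u, v, w} k₀ Λ₀}
    {H : Graded.{u, v, w} k Λ} (hf : Graded.IsBaseChange f H₀ H) {F : Type*} {E : Type*} [Field F]
    [Field E] [Algebra F E] [Algebra k₀ E] (h : H₀.Conjecture F E) : H.Conjecture k k := by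
  obtain ⟨n, c, x, hc⟩ := H₀.exists_comb h
  obtain ⟨m, hm, hm', hs⟩ := hf
  refine ⟨n, fun j => algebraMap k₀ k (c j), fun j => f (x j), fun i h => ?_⟩
  have key : ∑ j, algebraMap k₀ k (c j) • H.act i (f (x j)) h = if i = 0 then h else 0 := by
    have hh : h ∈ Submodule.span k (Set.range (m i)) := by rw [hs]; trivial
    induction hh using Submodule.span_induction with
    | mem y hy =>
      obtain ⟨z, rfl⟩ := hy
      have h1 := congrArg (m i) (hc i z)
      rw [map_sum, Finset.sum_congr rfl (fun j _ => (hm i (c j) (H₀.act i (x j) z)).trans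
        (congrArg (fun y => algebraMap k₀ k (c j) • y) (hm' i (x j) z)))] at h1
      rw [h1]
      split_ifs
      · rfl
      · rw [map_zero]
    | zero => simp
    | add y z _ _ h1 h2 =>
      simp only [map_add, smul_add, Finset.sum_add_distrib, h1, h2]
      split_ifs
      · rfl
      · rw [add_zero]
    | smul a y _ h1 =>
      simp only [map_smul, smul_comm _ a]
      rw [← Finset.smul_sum, h1]
      split_ifs
      · rfl
      · rw [smul_zero]
  have h3 : ∀ j, (algebraMap k k (algebraMap k₀ k (c j))) ⊗ₜ[k] (H.act i (f (x j)) h) =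
      (1 : k) ⊗ₜ[k] (algebraMap k₀ k (c j) • H.act i (f (x j)) h) := fun j => by
    rw [TensorProduct.tmul_smul, TensorProduct.smul_tmul', smul_eq_mul, mul_one]
    rfl
  rw [Finset.sum_congr rfl (fun j _ => h3 j), ← TensorProduct.tmul_sum, key]
  split_ifs
  · rfl
  · rw [TensorProduct.tmul_zero]

/-- Conjecture `C_NC` with coefficients in any field gives a good combination. -/
lemma exists_good {F : Type*} {E : Type*} [Field F] [Field E] [Algebra F E] [Algebra k E]
    (h : A.HP.Conjecture F E) : ∃ (n : ℕ) (c : Fin n → WittVector p k) (x : Fin n → Λ), A.Good c x := by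
  obtain ⟨n, c, x, hc⟩ := A.HP.exists_comb h
  choose c' hc' using fun j => WittVector.constantCoeff_surjective (p := p) (c j)
  refine ⟨n, c', x, fun i h => ?_⟩
  rw [← hc i h]
  exact Finset.sum_congr rfl (fun j _ => by rw [hc' j])

variable [PerfectRing k p]

lemma p_mem : (p : WittVector p k) ∈ IsLocalRing.maximalIdeal (WittVector p k) := by
  rw [IsLocalRing.mem_maximalIdeal, mem_nonunits_iff]
  intro h
  have h1 := h.map (WittVector.constantCoeff (p := p) (R := k))
  rw [map_natCast, CharP.cast_eq_zero] at h1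
  exact not_isUnit_zero h1

/-- Nakayama. -/
lemma inj_of_mod {M : Type*} [AddCommGroup M] [Module (WittVector p k) M]
    [Module.Finite (WittVector p k) M] (θ : Module.End (WittVector p k) M)
    (h : ∀ t, ∃ t', θ t - t = (p : WittVector p k) • t') : Function.Injective θ := by
  apply OrzechProperty.injective_of_surjective_endomorphism
  rw [← LinearMap.range_eq_top, eq_top_iff]
  apply Submodule.le_of_le_smul_of_le_jacobson_bot (I := Ideal.span {(p : WittVector p k)})
    Module.Finite.fg_top
  · rw [IsLocalRing.jacobson_eq_maximalIdeal ⊥ bot_ne_top, Ideal.span_le, Set.singleton_subset_iff]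
    exact p_mem
  · intro t _
    obtain ⟨t', ht'⟩ := h t
    have h1 : t = θ t - (p : WittVector p k) • t' := by rw [← ht']; abel
    rw [h1]
    exact Submodule.sub_mem _ (Submodule.mem_sup_left ⟨t, rfl⟩)
      (Submodule.mem_sup_right (Submodule.smul_mem_smul (Ideal.mem_span_singleton_self _) trivial))

/-- **Torsion.** -/
theorem torsionFree_of_good {n : ℕ} {c : Fin n → WittVector p k} {x : Fin n → Λ}
    (hg : A.Good c x) : A.TP.TorsionFree := by
  have key : ∀ (i : ZMod 2) (t : A.TP.M (i + 1)), (p : WittVector p k) • t = 0 → t = 0 := by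
    intro i t ht
    obtain ⟨h, rfl⟩ := (A.isExact.ker_mul i t).1 ht
    rcases parity i with ⟨h0, h1⟩ | ⟨h0, h1⟩
    · -- `1 - φ` is injective on `TP 1`
      have h2 : Function.Injective
          ((1 : Module.End (WittVector p k) (A.TP.M (i + 1))) - A.comb c x (i + 1)) := by
        apply inj_of_mod
        intro t
        apply (A.isExact.ker_red _ _).1
        rw [map_sub, LinearMap.sub_apply, map_sub, A.red_comb hg, if_neg h1]
        simp
      apply h2
      rw [map_zero, LinearMap.sub_apply, A.bd_comb hg, if_pos h0]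
      simp
    · have h2 : Function.Injective (A.comb c x (i + 1)) := by
        apply inj_of_mod
        intro t
        apply (A.isExact.ker_red _ _).1
        rw [map_sub, A.red_comb hg, if_pos h1, sub_self]
      apply h2
      rw [map_zero, A.bd_comb hg, if_neg h0]
  have key' : ∀ (i : ZMod 2) (t : A.TP.M i), (p : WittVector p k) • t = 0 → t = 0 := by
    intro i
    obtain ⟨j, rfl⟩ : ∃ j, i = j + 1 := ⟨i - 1, by ring⟩
    exact key j
  intro i a t hat
  by_cases ha : a = 0
  · exact Or.inl ha
  · right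
    obtain ⟨m, b, rfl⟩ := WittVector.exists_eq_pow_p_mul' a ha
    rw [mul_comm, mul_smul] at hat
    have h1 : (p : WittVector p k) ^ m • t = 0 := by
      have := congrArg (fun y => (↑b⁻¹ : WittVector p k) • y) hat
      simpa [smul_smul] using this
    clear hat ha
    induction m with
    | zero => simpa using h1
    | succ m ih =>
      apply ih
      apply key'
      rwa [← mul_smul, ← pow_succ']

lemma charZero_witt : CharZero (WittVector p k) := by
  obtain ⟨q, hq⟩ := CharP.exists (WittVector p k)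
  rcases CharP.char_is_prime_or_zero (WittVector p k) q with h | h
  · exfalso
    have h1 : (q : k) = 0 := by
      rw [← map_natCast (WittVector.constantCoeff (p := p) (R := k)), CharP.cast_eq_zero, map_zero]
    rw [CharP.cast_eq_zero_iff k p] at h1
    have h2 : q = p := ((Nat.prime_dvd_prime_iff_eq hp.out h).1 h1).symm
    subst h2
    exact WittVector.p_nonzero q k (CharP.cast_eq_zero _ _)
  · subst h
    exact CharP.charP_to_charZero _

lemma cc_iff (a : WittVector p k) :
    WittVector.constantCoeff a = 0 ↔ (p : WittVector p k) ∣ a := by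
  rw [← RingHom.mem_ker, WittVector.ker_constantCoeff, Ideal.mem_span_singleton]

lemma cc_local : IsLocalHom (WittVector.constantCoeff (p := p) (R := k)) :=
  ⟨fun a ha => by
    by_contra h
    rw [← mem_nonunits_iff, ← IsLocalRing.mem_maximalIdeal] at h
    have h1 : a ∈ IsLocalRing.maximalIdeal (WittVector p k) := h
    have h2 : WittVector.constantCoeff a = 0 := by
      by_contra h0
      have h3 := WittVector.isUnit_of_coeff_zero_ne_zero a h0
      rw [IsLocalRing.mem_maximalIdeal] at h1
      exact h1 h3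
    rw [h2] at ha
    exact not_isUnit_zero ha⟩

lemma free_of_torsionFree (ht : A.TP.TorsionFree) (i : ZMod 2) :
    Module.Free (WittVector p k) (A.TP.M i) := by
  have : Module.IsTorsionFree (WittVector p k) (A.TP.M i) := by
    rw [Module.isTorsionFree_iff_smul_eq_zero]
    intro a t h
    exact ht i a t h
  infer_instance

/-- **The integral projector.** -/
theorem integral_of_comb (ht : A.TP.TorsionFree) {n : ℕ} {c : Fin n → WittVector p k}
    {x : Fin n → Λ} (hc : ∀ i (t : A.TP.M i), A.red i (A.comb c x i t) =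
      if i = 0 then A.red i t else 0) : Graded.IntegralMultiple p A.TP := by
  have := charZero_witt (p := p) (k := k)
  have := cc_local (p := p) (k := k)
  have hfree := A.free_of_torsionFree ht
  let b0 := Module.finBasis (WittVector p k) (A.TP.M 0)
  let b1 := Module.finBasis (WittVector p k) (A.TP.M 1)
  let Φ0 := (LinearMap.toMatrixAlgEquiv b0).toRingEquiv.toRingHom.comp (A.TP.act 0)
  let Φ1 := (LinearMap.toMatrixAlgEquiv b1).toRingEquiv.toRingHom.comp (A.TP.act 1)
  let Φ := Φ0.prod Φ1
  have hΦ0 : ∀ y, (Φ y).1 = LinearMap.toMatrixAlgEquiv b0 (A.TP.act 0 y) := fun _ => rfl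
  have hΦ1 : ∀ y, (Φ y).2 = LinearMap.toMatrixAlgEquiv b1 (A.TP.act 1 y) := fun _ => rfl
  have hs : ∀ y, ∃ z : ℤ, str (Φ y) = z := by
    intro y
    obtain ⟨z, hz⟩ := A.integralTraces hfree y
    refine ⟨z, ?_⟩
    rw [← hz, str, hΦ0, hΦ1, LinearMap.trace_eq_matrix_trace _ b0,
      LinearMap.trace_eq_matrix_trace _ b1]
    rfl
  have hsum1 : (∑ j, c j • Φ (x j)).1 = LinearMap.toMatrixAlgEquiv b0 (A.comb c x 0) := by
    rw [Prod.fst_sum, comb, map_sum]
    exact Finset.sum_congr rfl (fun j _ => by rw [map_smul]; rfl)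
  have hsum2 : (∑ j, c j • Φ (x j)).2 = LinearMap.toMatrixAlgEquiv b1 (A.comb c x 1) := by
    rw [Prod.snd_sum, comb, map_sum]
    exact Finset.sum_congr rfl (fun j _ => by rw [map_smul]; rfl)
  obtain ⟨N, y, hN, hy⟩ := core (r := WittVector.constantCoeff) hp.out cc_iff Φ hs
    (Y := ∑ j, c j • Φ (x j))
    (Submodule.sum_mem _ (fun j _ => Submodule.smul_mem _ _ (Submodule.subset_span ⟨_, rfl⟩)))
    (by
      rw [hsum1]
      ext a b
      rw [Matrix.map_apply, LinearMap.toMatrixAlgEquiv_apply]
      have h1 : A.red 0 (A.comb c x 0 (b0 b) - b0 b) = 0 := by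
        rw [map_sub, hc, if_pos rfl, sub_self]
      obtain ⟨t', ht'⟩ := (A.isExact.ker_red _ _).1 h1
      have h2 : A.comb c x 0 (b0 b) = b0 b + (p : WittVector p k) • t' := by rw [← ht']; abel
      rw [h2, map_add, map_smul, Finsupp.add_apply, Finsupp.smul_apply, smul_eq_mul, map_add,
        map_mul, map_natCast, CharP.cast_eq_zero, zero_mul, add_zero, b0.repr_self,
        Finsupp.single_apply, Matrix.one_apply]
      by_cases hab : a = b
      · rw [if_pos hab.symm, if_pos hab, map_one]
      · rw [if_neg (Ne.symm hab), if_neg hab, map_zero])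
    (by
      rw [hsum2]
      ext a b
      rw [Matrix.map_apply, LinearMap.toMatrixAlgEquiv_apply]
      have h1 : A.red 1 (A.comb c x 1 (b1 b)) = 0 := by
        rw [hc, if_neg (by decide)]
      obtain ⟨t', ht'⟩ := (A.isExact.ker_red _ _).1 h1
      rw [ht', map_smul, Finsupp.smul_apply, smul_eq_mul, map_mul, map_natCast,
        CharP.cast_eq_zero, zero_mul, Matrix.zero_apply])
  refine ⟨N, hN, y, ?_⟩
  have e0 : A.TP.act 0 y = (N : Module.End (WittVector p k) (A.TP.M 0)) := by
    apply (LinearMap.toMatrixAlgEquiv b0).injective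
    rw [← hΦ0, hy, map_natCast]
  have e1 : A.TP.act 1 y = 0 := by
    apply (LinearMap.toMatrixAlgEquiv b1).injective
    rw [← hΦ1, hy, map_zero]
  intro i t
  rcases zmod_cases i with rfl | rfl
  · rw [if_pos rfl, e0]
    simp
  · rw [if_neg (by decide), e1, LinearMap.zero_apply]

omit [PerfectRing k p] in
lemma red_surj (ht : A.TP.TorsionFree) (i : ZMod 2) (h : A.HP.M i) : ∃ t, A.red i t = h := by
  rw [← A.isExact.ker_bd]
  rcases ht (i + 1) (p : WittVector p k) (A.bd i h) ((A.isExact.ker_mul i _).2 ⟨h, rfl⟩) with h1 | h1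
  · exact absurd h1 (WittVector.p_nonzero p k)
  · exact h1

/-- **The equivalence of the four conditions.** -/
theorem conj_tfae (F : Type*) (E : Type*) [Field F] [Field E] [Algebra F E] [Algebra k E] :
    [Graded.Conjecture A.HP F E, A.HP.Realised, A.TP.TorsionFree ∧ A.TP.WittCombination,
      A.TP.TorsionFree ∧ Graded.IntegralMultiple p A.TP].TFAE := by
  tfae_have 1 → 4 := by
    intro h
    obtain ⟨n, c, x, hg⟩ := A.exists_good h
    have ht := A.torsionFree_of_good hg
    exact ⟨ht, A.integral_of_comb ht (A.red_comb hg)⟩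
  tfae_have 4 → 3 := by
    rintro ⟨ht, N, hN, x, hx⟩
    refine ⟨ht, ?_⟩
    have hu : IsUnit (N : WittVector p k) := by
      apply WittVector.isUnit_of_coeff_zero_ne_zero
      have h1 : (N : WittVector p k).coeff 0 = (N : k) :=
        map_natCast (WittVector.constantCoeff (p := p) (R := k)) N
      rw [h1, Ne, CharP.cast_eq_zero_iff k p]
      intro h2
      exact hp.out.one_lt.ne' (Nat.Coprime.eq_one_of_dvd hN.symm h2)
    obtain ⟨u, hu⟩ := hu
    refine ⟨1, fun _ => ((u⁻¹ : (WittVector p k)ˣ) : WittVector p k), fun _ => x, fun i t => ?_⟩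
    rw [Fin.sum_univ_one, hx]
    split_ifs
    · rw [← Nat.cast_smul_eq_nsmul (WittVector p k), ← hu, smul_smul, Units.inv_mul, one_smul]
    · rw [smul_zero]
  tfae_have 3 → 4 := by
    rintro ⟨ht, n, c, x, hc⟩
    refine ⟨ht, A.integral_of_comb ht (c := c) (x := x) ?_⟩
    intro i t
    rw [comb_apply, hc]
    split_ifs
    · rfl
    · rw [map_zero]
  tfae_have 4 → 2 := by
    rintro ⟨ht, N, hN, x, hx⟩
    have h1 : ((N : ZMod p)) * ((N : ZMod p)⁻¹).val = 1 := by
      rw [ZMod.natCast_zmod_val]
      apply mul_inv_cancel₀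
      rw [Ne, ZMod.natCast_eq_zero_iff]
      intro h2
      exact hp.out.one_lt.ne' (Nat.Coprime.eq_one_of_dvd hN.symm h2)
    have h2 : ((((N : ZMod p)⁻¹).val * N : ℕ) : k) = 1 := by
      have h3 : ((((N : ZMod p)⁻¹).val * N : ℕ) : ZMod p) = ((1 : ℕ) : ZMod p) := by
        rw [Nat.cast_mul, mul_comm, h1, Nat.cast_one]
      rw [ZMod.natCast_eq_natCast_iff] at h3
      rw [← Nat.cast_one, CharP.natCast_eq_natCast k p]
      exact h3
    refine ⟨((N : ZMod p)⁻¹).val • x, fun i h => ?_⟩
    obtain ⟨t, rfl⟩ := A.red_surj ht i h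
    rw [map_nsmul, LinearMap.smul_apply, ← A.isReduction.comm, hx]
    split_ifs
    · rw [map_nsmul, smul_smul, ← Nat.cast_smul_eq_nsmul k, h2, one_smul]
    · rw [map_zero, smul_zero]
  tfae_have 2 → 1 := by
    rintro ⟨x, hx⟩
    refine ⟨1, fun _ => 1, fun _ => x, fun i h => ?_⟩
    rw [Fin.sum_univ_one, hx, map_one]
    split_ifs
    · rfl
    · rw [TensorProduct.tmul_zero]
  tfae_finish

/-- **The dimensions.** -/
theorem finrank_eq (ht : A.TP.TorsionFree) (i : ZMod 2) :
    Module.finrank k (A.HP.M i) = Module.finrank (WittVector p k) (A.TP.M i) := by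
  have hfree := A.free_of_torsionFree ht
  let b := Module.finBasis (WittVector p k) (A.TP.M i)
  have hli : LinearIndependent k (fun j => A.red i (b j)) := by
    rw [Fintype.linearIndependent_iff]
    intro g hg j
    choose w hw using fun j => WittVector.constantCoeff_surjective (p := p) (g j)
    have h1 : A.red i (∑ j, w j • b j) = 0 := by
      rw [map_sum, ← hg]
      exact Finset.sum_congr rfl (fun j _ => by rw [A.isReduction.smul, hw])
    obtain ⟨t', ht'⟩ := (A.isExact.ker_red _ _).1 h1
    have h2 := congrArg (fun t => b.repr t j) ht'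
    have h3 : b.repr (∑ j, w j • b j) j = w j := by
      rw [b.repr_sum_self]
    rw [h3, map_smul, Finsupp.smul_apply, smul_eq_mul] at h2
    rw [← hw j, h2, map_mul, map_natCast, CharP.cast_eq_zero, zero_mul]
  have hsp : ⊤ ≤ Submodule.span k (Set.range (fun j => A.red i (b j))) := by
    intro h _
    obtain ⟨t, rfl⟩ := A.red_surj ht i h
    rw [← b.sum_repr t, map_sum]
    refine Submodule.sum_mem _ (fun j _ => ?_)
    rw [A.isReduction.smul]
    exact Submodule.smul_mem _ _ (Submodule.subset_span ⟨j, rfl⟩)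
  rw [Module.finrank_eq_card_basis (Module.Basis.mk hli hsp), Fintype.card_fin]

end Periodic

section Invariants

/-- A finite `p`-group which acts on a nonzero vector space in characteristic `p` fixes a nonzero
vector. -/
theorem exists_invariant {p : ℕ} [hp : Fact p.Prime] {k : Type*} [Field k] [CharP k p] {G V : Type*}
    [Group G] [Finite G] (hG : IsPGroup p G) [AddCommGroup V] [Module k V]
    (ρ : Representation k G V) {v : V} (hv : v ≠ 0) : ∃ u : V, u ≠ 0 ∧ ∀ g, ρ g u = u := by
  classical
  have := Fintype.ofFinite G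
  let φ : (G → ZMod p) →+ V :=
    { toFun := fun f => ∑ g, (ZMod.castHom dvd_rfl k (f g)) • ρ g v
      map_zero' := by simp
      map_add' := by
        intro f f'
        rw [← Finset.sum_add_distrib]
        exact Finset.sum_congr rfl (fun g _ => by rw [Pi.add_apply, map_add, add_smul]) }
  have hφ : ∀ f, φ f = ∑ g, (ZMod.castHom dvd_rfl k (f g)) • ρ g v := fun _ => rfl
  have hst : ∀ (g : G) (y : V), y ∈ φ.range → ρ g y ∈ φ.range := by
    rintro g _ ⟨f, rfl⟩
    refine ⟨fun h => f (g⁻¹ * h), ?_⟩
    rw [hφ, hφ, map_sum]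
    refine Fintype.sum_equiv (Equiv.mulLeft g⁻¹) _ _ (fun h => ?_)
    rw [Equiv.coe_mulLeft, map_smul, ← Module.End.mul_apply, ← map_mul, mul_inv_cancel_left]
  let act : MulAction G φ.range :=
    { smul := fun g y => ⟨ρ g y.1, hst g y.1 y.2⟩
      one_smul := fun y => Subtype.ext (by
        change ρ 1 y.1 = y.1
        rw [map_one, Module.End.one_apply])
      mul_smul := fun g h y => Subtype.ext (by
        change ρ (g * h) y.1 = ρ g (ρ h y.1)
        rw [map_mul, Module.End.mul_apply]) }
  have hact : ∀ (g : G) (y : φ.range), ((g • y : φ.range) : V) = ρ g y.1 := fun _ _ => rfl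
  have hfin : Finite φ.range := Set.finite_range φ |>.to_subtype
  have hvm : v ∈ φ.range := by
    refine ⟨Pi.single 1 1, ?_⟩
    rw [hφ, Finset.sum_eq_single 1]
    · simp
    · intro g _ hg
      simp [hg]
    · intro h
      exact absurd (Finset.mem_univ _) h
  have hcard : p ∣ Nat.card φ.range := by
    have h1 : Nat.card φ.range ∣ Nat.card (G → ZMod p) := AddSubgroup.card_range_dvd φ
    have h2 : Nat.card (G → ZMod p) = p ^ Fintype.card G := by
      rw [Nat.card_eq_fintype_card, Fintype.card_fun, ZMod.card]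
    rw [h2, Nat.dvd_prime_pow hp.out] at h1
    obtain ⟨r, -, hr⟩ := h1
    rw [hr]
    apply dvd_pow_self
    rintro rfl
    rw [pow_zero, Nat.card_eq_one_iff_unique] at hr
    have h3 := hr.1.elim ⟨v, hvm⟩ 0
    exact hv (congrArg Subtype.val h3)
  obtain ⟨b, hb, hb0⟩ := hG.exists_fixed_point_of_prime_dvd_card_of_fixed_point φ.range hcard
    (a := 0) (by
      intro g
      apply Subtype.ext
      rw [hact]
      simp)
  refine ⟨b.1, fun h => hb0 (Subtype.ext h.symm), fun g => ?_⟩
  rw [← hact, hb g]

end Invariants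

end Run7.h43.CP
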