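import Pool.Agent.TH133.PW.CasB
import Pool.Agent.H914R2.Core0

/-!
# Lifting the even projector: matrices over a local ring
-/

set_option autoImplicit false

open Polynomial

namespace Run7.h43.CP

section Inv

variable {W : Type*} [CommRing W] {m n : Type*} [Fintype m] [DecidableEq m] [Fintype n]
  [DecidableEq n]

/-- The inverse of a matrix is a polynomial in the matrix. -/
lemma exists_poly_inv (ψ : Matrix m m W) (h : IsUnit ψ.det) :
    ∃ q : W[X], aeval ψ q * ψ = 1 := by
  have hc : IsUnit (ψ.charpoly.coeff 0) := by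
    rw [Matrix.det_eq_sign_charpoly_coeff] at h
    exact isUnit_of_mul_isUnit_right h
  obtain ⟨u, hu⟩ := hc
  have h1 := Matrix.aeval_self_charpoly ψ
  rw [← Polynomial.divX_mul_X_add ψ.charpoly, map_add, map_mul, aeval_X, aeval_C, ← hu] at h1
  refine ⟨- C (↑u⁻¹ : W) * ψ.charpoly.divX, ?_⟩
  have h2 : aeval ψ ψ.charpoly.divX * ψ = - algebraMap W (Matrix m m W) (u : W) :=
    eq_neg_of_add_eq_zero_left h1
  rw [map_mul, map_neg, aeval_C, mul_assoc, h2, neg_mul_neg, ← map_mul, Units.inv_mul, map_one]

variable {k : Type*} [Field k] (r : W →+* k) [IsLocalHom r]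

/-- **Separation by a polynomial.** -/
theorem exists_poly (A : Matrix m m W) (B : Matrix n n W) (hA : A.map r = 1) (hB : B.map r = 0) :
    ∃ h : W[X], aeval A h = 1 ∧ aeval B h = 0 := by
  have h1 : r (aeval A B.charpoly).det = 1 := by
    rw [RingHom.map_det, RingHom.mapMatrix_apply]
    have h2 : (aeval A B.charpoly).map r = 1 := by
      rw [← RingHom.mapMatrix_apply, aeval_def, hom_eval₂]
      have h3 : (r.mapMatrix (m := m)).comp (algebraMap W (Matrix m m W)) =
          (algebraMap k (Matrix m m k)).comp r := by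
        ext x i j
        simp [Matrix.algebraMap_matrix_apply, apply_ite r]
      rw [h3, RingHom.mapMatrix_apply, hA, ← eval₂_map, ← Matrix.charpoly_map, hB,
        Matrix.charpoly_zero, ← aeval_def, map_pow, aeval_X, one_pow]
    rw [h2, Matrix.det_one]
  have h2 : IsUnit (aeval A B.charpoly).det := by
    apply isUnit_of_map_unit r
    rw [h1]
    exact isUnit_one
  obtain ⟨q, hq⟩ := exists_poly_inv _ h2
  refine ⟨q.comp B.charpoly * B.charpoly, ?_, ?_⟩
  · rw [map_mul, aeval_comp]
    exact hq
  · rw [map_mul, Matrix.aeval_self_charpoly, mul_zero]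

end Inv

section Den

variable {W : Type*} [CommRing W] [IsDomain W] [CharZero W] {k : Type*} [Field k] {r : W →+* k}
  {p : ℕ}

/-- Elements with a nonzero integral multiple in the integers have such a multiple by a number prime
to `p`. -/
lemma exists_coprime (hp : p.Prime) (hr : ∀ w, r w = 0 ↔ (p : W) ∣ w) {w : W} {M : ℕ}
    (hM : M ≠ 0) {z : ℤ} (h : (M : W) * w = z) : ∃ N : ℕ, N.Coprime p ∧ ∃ z' : ℤ, (N : W) * w = z' := by
  have hpk : (p : k) = 0 := by
    rw [← map_natCast r]
    exact (hr _).2 dvd_rfl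
  have hck : CharP k p := by
    obtain ⟨q, hq⟩ := CharP.exists k
    have h1 : q ∣ p := (CharP.cast_eq_zero_iff k q p).1 hpk
    rcases (Nat.dvd_prime hp).1 h1 with h2 | h2
    · subst h2
      have h3 := (CharP.cast_eq_zero_iff k 1 1).2 dvd_rfl
      rw [Nat.cast_one] at h3
      exact absurd h3 one_ne_zero
    · rwa [← h2]
  obtain ⟨s, N, hN, rfl⟩ := Nat.exists_eq_pow_mul_and_not_dvd hM p hp.ne_one
  have hN' : N.Coprime p := ((Nat.Prime.coprime_iff_not_dvd hp).2 hN).symm
  refine ⟨N, hN', ?_⟩
  rw [Nat.cast_mul, Nat.cast_pow, mul_assoc] at h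
  generalize (N : W) * w = y at h
  clear hM
  induction s generalizing z with
  | zero => exact ⟨z, by simpa using h⟩
  | succ s ih =>
    have h1 : r (z : W) = 0 := by
      rw [hr, ← h, pow_succ', mul_assoc]
      exact dvd_mul_right _ _
    rw [map_intCast, CharP.intCast_eq_zero_iff k p] at h1
    obtain ⟨z1, rfl⟩ := h1
    apply ih (z := z1)
    have hp0 : (p : W) ≠ 0 := Nat.cast_ne_zero.2 hp.ne_zero
    apply mul_left_cancel₀ hp0
    rw [← mul_assoc, ← pow_succ', h]
    push_cast
    ring

end Den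

end Run7.h43.CP
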