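import Pool.Agent.Run7.h43.CP.Mat

/-!
# Lifting the even projector: rational multiples
-/

set_option autoImplicit false

open Polynomial

namespace Run7.h43.CP

open Pool.Agent.TH133.PW

variable {W : Type*} [CommRing W] [IsDomain W] [CharZero W] {Λ : Type*} [Ring Λ]
  {m n : Type*} [Fintype m] [DecidableEq m] [Fintype n] [DecidableEq n]

/-- The supertrace of a pair of matrices. -/
def str {W : Type*} [CommRing W] {m n : Type*} [Fintype m] [Fintype n]
    (Y : Matrix m m W × Matrix n n W) : W := Y.1.trace - Y.2.trace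

section Field

variable {K : Type*} [Field K] [CharZero K]

/-- Pairs of matrices as operators. -/
noncomputable def opr : (Matrix m m K × Matrix n n K) →ₐ[K] Module.End K ((m → K) × (n → K)) :=
  (LinearMap.prodMapAlgHom K (m → K) (n → K)).comp
    (AlgHom.prod ((Matrix.toLinAlgEquiv' (R := K) (n := m)).toAlgHom.comp (AlgHom.fst K _ _))
      ((Matrix.toLinAlgEquiv' (R := K) (n := n)).toAlgHom.comp (AlgHom.snd K _ _)))

omit [CharZero K] in
lemma opr_apply (Y : Matrix m m K × Matrix n n K) :
    opr Y = (Matrix.toLin' Y.1).prodMap (Matrix.toLin' Y.2) := rfl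

omit [CharZero K] in
lemma opr_inj : Function.Injective (opr (K := K) (m := m) (n := n)) := by
  intro Y Z h
  rw [opr_apply, opr_apply] at h
  apply Prod.ext
  · apply (Matrix.toLin' (R := K)).injective
    apply LinearMap.ext
    intro v
    have := congrArg Prod.fst (LinearMap.congr_fun h (v, 0))
    simpa using this
  · apply (Matrix.toLin' (R := K)).injective
    apply LinearMap.ext
    intro v
    have := congrArg Prod.snd (LinearMap.congr_fun h (0, v))
    simpa using this

omit [CharZero K] in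
lemma trace_opr (Y : Matrix m m K × Matrix n n K) :
    LinearMap.trace K _ (opr Y) = Y.1.trace + Y.2.trace := by
  rw [opr_apply, LinearMap.trace_prodMap', Matrix.trace_toLin'_eq, Matrix.trace_toLin'_eq]

/-- **Rational coefficients, over a field.** -/
theorem exists_multiple_abs {B : Type*} [Ring B] [Algebra K B] [Module.Finite K B] {V : Type*}
    [AddCommGroup V] [Module K V] [Module.Finite K V] (ρ : B →ₐ[K] Module.End K V)
    (hρ : Function.Injective ρ) (Φ : Λ →+* B) {P : B} (hPP : P * P = P)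
    (hPc : ∀ x, P * x = x * P)
    (hs : ∀ x, ∃ z : ℤ, LinearMap.trace K V (ρ (P * Φ x)) -
      LinearMap.trace K V (ρ ((1 - P) * Φ x)) = z)
    (hP : P ∈ Submodule.span K (Set.range Φ)) :
    ∃ M : ℕ, M ≠ 0 ∧ ∃ a, Φ a = M • P := by
  obtain ⟨𝒮, h𝒮⟩ : ∃ 𝒮, 𝒮 = Submodule.span K (Set.range Φ) := ⟨_, rfl⟩
  rw [← h𝒮] at hP
  have hΦ : ∀ x, Φ x ∈ 𝒮 := fun x => by rw [h𝒮]; exact Submodule.subset_span ⟨x, rfl⟩
  have h1 : (1 : B) ∈ 𝒮 := by rw [← map_one Φ]; exact hΦ 1
  have hm : ∀ x y : B, x ∈ 𝒮 → y ∈ 𝒮 → x * y ∈ 𝒮 := by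
    intro x y hx hy
    have h2 : x * y ∈ 𝒮 * 𝒮 := Submodule.mul_mem_mul hx hy
    rw [h𝒮, Submodule.span_mul_span] at h2
    rw [h𝒮]
    refine Submodule.span_mono ?_ h2
    rintro _ ⟨_, ⟨u, rfl⟩, _, ⟨v, rfl⟩, rfl⟩
    exact ⟨u * v, map_mul Φ u v⟩
  let S : Subalgebra K B := 𝒮.toSubalgebra h1 (fun x y hx hy => hm x y hx hy)
  let A : Set S := {s | ∃ M : ℕ, M ≠ 0 ∧ ∃ a, Φ a = M • (s : B)}
  let P' : S := ⟨P, hP⟩
  have hPA : P' ∈ A := by
    apply central_idem_mem (K := K) (V := V) (A := A) (ρ := ρ.comp S.val)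
    · exact ⟨1, one_ne_zero, 1, by rw [map_one, one_smul]; rfl⟩
    · rintro x ⟨M, hM, a, ha⟩ y ⟨N, hN, b, hb⟩
      refine ⟨M * N, mul_ne_zero hM hN, N • a + M • b, ?_⟩
      rw [map_add, map_nsmul, map_nsmul, ha, hb, Subalgebra.coe_add, smul_add, mul_smul, mul_smul,
        smul_comm N M (x : B)]
    · rintro q x ⟨M, hM, a, ha⟩
      refine ⟨q.den * M, mul_ne_zero q.den_nz hM, q.num • a, ?_⟩
      rw [map_zsmul, ha, Subalgebra.coe_smul, ← Nat.cast_smul_eq_nsmul K (q.den * M),
        ← Nat.cast_smul_eq_nsmul K M, ← Int.cast_smul_eq_zsmul K, smul_smul, smul_smul]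
      congr 1
      have h2 : (q.den : K) * (q : K) = q.num := by
        have := Rat.den_mul_eq_num q
        exact_mod_cast congrArg (Rat.cast : ℚ → K) this
      rw [← h2]
      push_cast
      ring
    · rintro x ⟨M, hM, a, ha⟩ y ⟨N, hN, b, hb⟩
      refine ⟨M * N, mul_ne_zero hM hN, a * b, ?_⟩
      rw [map_mul, ha, hb, Subalgebra.coe_mul, smul_mul_smul_comm]
    · rw [eq_top_iff]
      rintro ⟨y, hy⟩ -
      have key : ∀ y (hy : y ∈ 𝒮), (⟨y, hy⟩ : S) ∈ Submodule.span K A := by
        intro y hy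
        have hy' := hy
        rw [h𝒮] at hy'
        induction hy' using Submodule.span_induction with
        | mem y hy' =>
          obtain ⟨a, rfl⟩ := hy'
          exact Submodule.subset_span ⟨1, one_ne_zero, a, by rw [one_smul]⟩
        | zero => exact Submodule.zero_mem _
        | add x y hx' hy'' h1 h2 =>
          exact Submodule.add_mem _ (h1 (by rw [h𝒮]; exact hx')) (h2 (by rw [h𝒮]; exact hy''))
        | smul a x hx' h1 =>
          exact Submodule.smul_mem _ a (h1 (by rw [h𝒮]; exact hx'))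
      exact key y hy
    · exact hρ.comp Subtype.val_injective
    · exact Subtype.ext hPP
    · exact fun x => Subtype.ext (hPc x)
    · rintro ⟨x, hx⟩ ⟨M, hM, a, ha⟩
      obtain ⟨z, hz⟩ := hs a
      refine ⟨(z : ℚ) / M, ?_⟩
      have e1 : (ρ.comp S.val) (P' * ⟨x, hx⟩) = ρ (P * x) := rfl
      have e2 : (ρ.comp S.val) ((1 - P') * ⟨x, hx⟩) = ρ ((1 - P) * x) := rfl
      have ha' : Φ a = (M : K) • x := by rw [ha, Nat.cast_smul_eq_nsmul]
      have hM' : (M : K) ≠ 0 := Nat.cast_ne_zero.2 hM
      rw [ha', mul_smul_comm, mul_smul_comm, map_smul, map_smul, map_smul, map_smul, smul_eq_mul,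
        smul_eq_mul, ← mul_sub] at hz
      rw [e1, e2, Rat.cast_div, Rat.cast_intCast, Rat.cast_natCast, ← hz,
        mul_div_cancel_left₀ _ hM']
  exact hPA

/-- **Rational coefficients, over a field**, for pairs of matrices. -/
theorem exists_multiple_field (Φ : Λ →+* (Matrix m m K × Matrix n n K))
    (hs : ∀ x, ∃ z : ℤ, str (Φ x) = z)
    (hP : ((1 : Matrix m m K), (0 : Matrix n n K)) ∈ Submodule.span K (Set.range Φ)) :
    ∃ M : ℕ, M ≠ 0 ∧ ∃ a, Φ a = ((M : Matrix m m K), (0 : Matrix n n K)) := by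
  obtain ⟨M, hM, a, ha⟩ := exists_multiple_abs opr opr_inj Φ
    (P := ((1 : Matrix m m K), (0 : Matrix n n K)))
    (by rw [Prod.mk_mul_mk, one_mul, mul_zero])
    (by rintro ⟨x, y⟩; rw [Prod.mk_mul_mk, Prod.mk_mul_mk, one_mul, mul_one, zero_mul, mul_zero])
    (by
      intro x
      obtain ⟨z, hz⟩ := hs x
      refine ⟨z, ?_⟩
      rw [← hz, str]
      obtain ⟨u, v⟩ := Φ x
      rw [← Prod.mk_one_one, Prod.mk_sub_mk, Prod.mk_mul_mk, Prod.mk_mul_mk, sub_self, zero_mul,
        zero_mul, sub_zero, one_mul, one_mul, trace_opr, trace_opr, Matrix.trace_zero,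
        Matrix.trace_zero, add_zero, zero_add]) hP
  refine ⟨M, hM, a, ?_⟩
  rw [ha]
  change (M • (1 : Matrix m m K), M • (0 : Matrix n n K)) = _
  rw [smul_zero, nsmul_eq_mul, mul_one]

end Field

/-- The map on pairs of matrices. -/
def prm {W K : Type*} [CommRing W] [CommRing K] (i : W →+* K) {m n : Type*} [Fintype m]
    [DecidableEq m] [Fintype n] [DecidableEq n] :
    (Matrix m m W × Matrix n n W) →+* (Matrix m m K × Matrix n n K) :=
  RingHom.prodMap i.mapMatrix i.mapMatrix

lemma prm_inj {W K : Type*} [CommRing W] [CommRing K] {i : W →+* K} (hi : Function.Injective i) :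
    Function.Injective (prm (m := m) (n := n) i) := by
  rintro ⟨a, b⟩ ⟨c, d⟩ h
  have h1 := congrArg Prod.fst h
  have h2 := congrArg Prod.snd h
  apply Prod.ext
  · exact Matrix.map_injective hi h1
  · exact Matrix.map_injective hi h2

/-- **Rational coefficients.** -/
theorem exists_multiple (Φ : Λ →+* (Matrix m m W × Matrix n n W))
    (hs : ∀ x, ∃ z : ℤ, str (Φ x) = z)
    (hP : ((1 : Matrix m m W), (0 : Matrix n n W)) ∈ Submodule.span W (Set.range Φ)) :
    ∃ M : ℕ, M ≠ 0 ∧ ∃ a, Φ a = ((M : Matrix m m W), (0 : Matrix n n W)) := by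
  let K := FractionRing W
  let i : W →+* K := algebraMap W K
  have hi : Function.Injective i := IsFractionRing.injective W K
  have hK : CharZero K := charZero_of_injective_algebraMap (R := W) hi
  obtain ⟨M, hM, a, ha⟩ := exists_multiple_field ((prm i).comp Φ) (by
      intro x
      obtain ⟨z, hz⟩ := hs x
      refine ⟨z, ?_⟩
      have : str ((prm i) (Φ x)) = i (str (Φ x)) := by
        change ((Φ x).1.map i).trace - ((Φ x).2.map i).trace = i _
        rw [str, map_sub, Matrix.trace, Matrix.trace, Matrix.trace, Matrix.trace, map_sum, map_sum]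
        rfl
      rw [RingHom.comp_apply, this, hz, map_intCast]) (by
      have h1 : prm i ((1 : Matrix m m W), (0 : Matrix n n W)) = (1, 0) := by
        change (Matrix.map 1 i, Matrix.map 0 i) = _
        rw [Matrix.map_one i (map_zero i) (map_one i), Matrix.map_zero i (map_zero i)]
      rw [← h1]
      clear h1
      generalize ((1 : Matrix m m W), (0 : Matrix n n W)) = Y at hP
      induction hP using Submodule.span_induction with
      | mem y hy =>
        obtain ⟨x, rfl⟩ := hy
        exact Submodule.subset_span ⟨x, rfl⟩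
      | zero => rw [map_zero]; exact Submodule.zero_mem _
      | add x y _ _ h1 h2 => rw [map_add]; exact Submodule.add_mem _ h1 h2
      | smul c x _ h1 =>
        have h2 : prm i (c • x) = i c • prm i x := by
          apply Prod.ext
          · change (c • x.1).map i = i c • x.1.map i
            ext a b
            simp
          · change (c • x.2).map i = i c • x.2.map i
            ext a b
            simp
        rw [h2]
        exact Submodule.smul_mem _ _ h1)
  refine ⟨M, hM, a, prm_inj hi ?_⟩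
  rw [RingHom.comp_apply] at ha
  rw [ha]
  change _ = (Matrix.map (M : Matrix m m W) i, Matrix.map 0 i)
  rw [Matrix.map_zero i (map_zero i)]
  congr 1
  have := map_natCast (i.mapMatrix (m := m)) M
  exact this.symm

end Run7.h43.CP
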